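import Pool.Agent.MP_66cee2_co.Q.Move

/-
Three points of a continuum in a space of dimension at most three.
-/

namespace Pool.Agent.MP_66cee2_co.Q1

open Set Metric Module Pool.Agent.MP_66cee2_co.X Pool.Agent.MP_66cee2_co.D
open Pool.Agent.MP_66cee2_co.TR Pool.Agent.MP_66cee2_co.Q
open scoped RealInnerProductSpace

variable {d : ℕ}

theorem ind {a b c w : E d} (ab : a ≠ b) (ac : a ≠ c) (bc : b ≠ c) (h1 : ‖w - a‖ = ‖w - b‖)
    (h2 : ‖w - a‖ = ‖w - c‖) : LinearIndependent ℝ ![b - a, c - a] := by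
  have d0 : b - a ≠ 0 := sub_ne_zero.2 ab.symm
  rw [LinearIndependent.pair_iff' d0]
  intro l hl
  have e1 := norm_sub_sq_real (w - a) (b - a)
  have e2 := norm_sub_sq_real (w - a) (l • (b - a))
  rw [sub_sub_sub_cancel_right, ← h1] at e1
  rw [real_inner_smul_right, norm_smul, mul_pow, Real.norm_eq_abs, sq_abs, hl,
    sub_sub_sub_cancel_right, ← h2] at e2
  have p : 0 < ‖b - a‖ ^ 2 := by
    have := norm_pos_iff.2 d0
    positivity
  have e3 : l * (l - 1) * ‖b - a‖ ^ 2 = 0 := by linear_combination l * e1 - e2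
  rcases mul_eq_zero.1 ((mul_eq_zero.1 e3).resolve_right p.ne') with h | h
  · rw [h, zero_smul] at hl
    exact ac (sub_eq_zero.1 hl.symm).symm
  · rw [sub_eq_zero.1 h, one_smul] at hl
    exact bc (sub_left_injective hl)

theorem orth {a b w w' : E d} (h1 : ‖w - a‖ = ‖w - b‖) (h2 : ‖w' - a‖ = ‖w' - b‖) :
    ⟪w' - w, b - a⟫ = 0 := by
  have e1 := norm_sub_sq_real w a
  have e2 := norm_sub_sq_real w b
  have e3 := norm_sub_sq_real w' a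
  have e4 := norm_sub_sq_real w' b
  rw [h1] at e1
  rw [h2] at e3
  rw [inner_sub_left, inner_sub_right, inner_sub_right]
  linarith

theorem four (M : Submodule ℝ (E d)) {p p' q q' : E d} (hp : p ∈ M) (hp' : p' ∈ M) (hq : q ∈ M)
    (hq' : q' ∈ M) (l1 : LinearIndependent ℝ ![p, p']) (l2 : LinearIndependent ℝ ![q, q'])
    (o1 : ⟪p, q⟫ = 0) (o2 : ⟪p, q'⟫ = 0) (o3 : ⟪p', q⟫ = 0) (o4 : ⟪p', q'⟫ = 0) :
    4 ≤ finrank ℝ M := by
  have f1 := finrank_span_eq_card l1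
  have f2 := finrank_span_eq_card l2
  rw [Matrix.range_cons_cons_empty, Fintype.card_fin] at f1 f2
  have o : Submodule.span ℝ {p, p'} ⟂ Submodule.span ℝ {q, q'} := by
    rw [Submodule.isOrtho_span]
    rintro x (rfl | rfl) y (rfl | rfl)
    exacts [o1, o2, o3, o4]
  have f3 := Submodule.finrank_sup_add_finrank_inf_eq (Submodule.span ℝ {p, p'})
    (Submodule.span ℝ {q, q'})
  rw [o.disjoint.eq_bot, finrank_bot, f1, f2] at f3
  have f4 : Submodule.span ℝ {p, p'} ⊔ Submodule.span ℝ {q, q'} ≤ M := by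
    refine sup_le (Submodule.span_le.2 ?_) (Submodule.span_le.2 ?_)
    · rintro x (rfl | rfl)
      exacts [hp, hp']
    · rintro x (rfl | rfl)
      exacts [hq, hq']
  have := Submodule.finrank_mono f4
  omega

theorem miss (M : Submodule ℝ (E d)) (hM : finrank ℝ M ≤ 3) {a b c : E d} (ha : a ∈ M)
    (hb : b ∈ M) (hc : c ∈ M) (ab : a ≠ b) (ac : a ≠ c) (bc : b ≠ c) (m θ : ℝ) (hθ : 0 < θ) :
    ∃ τ : ℝ, 0 ≤ τ ∧ τ ≤ 2 * θ ∧ ∀ w ∈ M, ‖w‖ ^ 2 = m + τ →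
      ¬ (‖w - a‖ = 1 ∧ ‖w - b‖ = 1 ∧ ‖w - c‖ = 1) := by
  by_contra h
  push Not at h
  obtain ⟨x, x0, x1, x2, x3, x4⟩ := h 0 le_rfl (by linarith)
  obtain ⟨y, y0, y1, y2, y3, y4⟩ := h θ hθ.le (by linarith)
  obtain ⟨z, z0, z1, z2, z3, z4⟩ := h (2 * θ) (by linarith) le_rfl
  have xy : x ≠ y := by
    rintro rfl
    linarith
  have xz : x ≠ z := by
    rintro rfl
    linarith
  have yz : y ≠ z := by
    rintro rfl
    linarith
  have := four M (M.sub_mem y0 x0) (M.sub_mem z0 x0) (M.sub_mem hb ha) (M.sub_mem hc ha)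
    (ind (w := a) xy xz yz (by rw [norm_sub_rev, x2, norm_sub_rev, y2])
      (by rw [norm_sub_rev, x2, norm_sub_rev, z2]))
    (ind (w := x) ab ac bc (x2.trans x3.symm) (x2.trans x4.symm))
    (orth (x2.trans x3.symm) (y2.trans y3.symm)) (orth (x2.trans x4.symm) (y2.trans y4.symm))
    (orth (x2.trans x3.symm) (z2.trans z3.symm)) (orth (x2.trans x4.symm) (z2.trans z4.symm))
  omega

theorem mean (a b c w : E d) : ‖w - a‖ ^ 2 + ‖w - b‖ ^ 2 + ‖w - c‖ ^ 2 =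
    3 * ‖w - (1 / 3 : ℝ) • (a + b + c)‖ ^ 2 + (‖a - b‖ ^ 2 + ‖a - c‖ ^ 2 + ‖b - c‖ ^ 2) / 3 := by
  simp only [← real_inner_self_eq_norm_sq, inner_sub_left, inner_sub_right, inner_add_left,
    inner_add_right, real_inner_smul_left, real_inner_smul_right]
  rw [real_inner_comm w a, real_inner_comm w b, real_inner_comm w c, real_inner_comm a b,
    real_inner_comm a c, real_inner_comm b c]
  ring

theorem split {x y z : ℝ} (hx : 0 ≤ x) (hy : 0 ≤ y) (hz : 0 ≤ z) (h : x ^ 2 + y ^ 2 + z ^ 2 = 3)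
    (hn : ¬ (x = 1 ∧ y = 1 ∧ z = 1)) : (x < 1 ∨ y < 1 ∨ z < 1) ∧ (1 < x ∨ 1 < y ∨ 1 < z) := by
  constructor
  · by_contra g
    push Not at g
    obtain ⟨g1, g2, g3⟩ := g
    exact hn ⟨by nlinarith, by nlinarith, by nlinarith⟩
  · by_contra g
    push Not at g
    obtain ⟨g1, g2, g3⟩ := g
    exact hn ⟨by nlinarith, by nlinarith, by nlinarith⟩

theorem shell_mem {o u w : E d} {M : Submodule ℝ (E d)} {ρ η : ℝ} (ρ0 : 0 < ρ) (η0 : 0 < η)
    (hw : w ∈ M) (hu : 0 ≤ ⟪w, u⟫) (h1 : ρ ^ 2 ≤ ‖w‖ ^ 2) (h2 : ‖w‖ ^ 2 ≤ ((1 + η) * ρ) ^ 2) :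
    o + w ∈ Shell o u M ρ η := by
  have a1 : ρ ≤ ‖w‖ := le_of_pow_le_pow_left₀ two_ne_zero (norm_nonneg _) h1
  have a2 : ‖w‖ ≤ (1 + η) * ρ := le_of_pow_le_pow_left₀ two_ne_zero (by positivity) h2
  have n0 : 0 < ‖w‖ := lt_of_lt_of_le ρ0 a1
  refine ⟨(ρ / ‖w‖) • w, M.smul_mem _ hw, ‖w‖ / ρ, ?_, ?_, (one_le_div ρ0).2 a1,
    (div_le_iff₀ ρ0).2 a2, ?_⟩
  · rw [norm_smul, Real.norm_eq_abs, abs_of_pos (div_pos ρ0 n0), div_mul_cancel₀ _ n0.ne']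
  · rw [real_inner_smul_left]
    positivity
  · rw [smul_smul, show ‖w‖ / ρ * (ρ / ‖w‖) = 1 by field_simp, one_smul]

theorem of_shell {o u y : E d} {M : Submodule ℝ (E d)} {ρ η : ℝ} (ρ0 : 0 < ρ)
    (h : y ∈ Shell o u M ρ η) : ∃ w ∈ M, y = o + w ∧ 0 ≤ ⟪w, u⟫ ∧ ρ ^ 2 ≤ ‖w‖ ^ 2 ∧
      ‖w‖ ^ 2 ≤ ((1 + η) * ρ) ^ 2 := by
  obtain ⟨w, w1, κ, w2, w3, w4, w5, rfl⟩ := h
  have e : ‖κ • w‖ = κ * ρ := by
    rw [norm_smul, w2, Real.norm_eq_abs, abs_of_pos (by linarith)]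
  refine ⟨κ • w, M.smul_mem _ w1, rfl, ?_, ?_, ?_⟩
  · rw [real_inner_smul_left]
    exact mul_nonneg (by linarith) w3
  · rw [e]
    exact pow_le_pow_left₀ ρ0.le (le_mul_of_one_le_left ρ0.le w4) 2
  · rw [e]
    exact pow_le_pow_left₀ (mul_nonneg (by linarith) ρ0.le)
      (mul_le_mul_of_nonneg_right w5 ρ0.le) 2

theorem third {K : Set (E d)} (hK : IsPreconnected K) {a b : E d} (ha : a ∈ K) (hb : b ∈ K)
    (ab : a ≠ b) : ∃ c ∈ K, a ≠ c ∧ b ≠ c := by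
  have p : 0 < ‖b - a‖ := norm_pos_iff.2 (sub_ne_zero.2 ab.symm)
  have c1 : Continuous fun y : E d => ‖y - a‖ := by fun_prop
  obtain ⟨c, hc, e⟩ := hK.intermediate_value ha hb c1.continuousOn
    (show ‖b - a‖ / 2 ∈ Icc ‖a - a‖ ‖b - a‖ from
      ⟨by rw [sub_self, norm_zero]; linarith, by linarith⟩)
  have e' : ‖c - a‖ = ‖b - a‖ / 2 := e
  refine ⟨c, hc, ?_, ?_⟩
  · rintro rfl
    rw [sub_self, norm_zero] at e'
    linarith
  · rintro rfl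
    linarith

end Pool.Agent.MP_66cee2_co.Q1
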