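import Pool.Agent.MP_66cee2_co.Q1.Step
import Pool.Agent.MP_66cee2_co.Q.Br
import Pool.Agent.MP_66cee2_co.Q.Gen
import Pool.Agent.MP_66cee2_co.Q.Piece
import Pool.Agent.MP_66cee2_co.Q.Leb
import Pool.Agent.MP_66cee2_co.Q.Rel
import Pool.Agent.MP_66cee2_co.Q.Sec
import Pool.Agent.MP_66cee2_co.TR.TT

/-
The topological theorem in the quadratic range, one dimension further.
-/

namespace Pool.Agent.MP_66cee2_co.Q1

open Set Metric Module Pool.Agent.MP_66cee2_co.X Pool.Agent.MP_66cee2_co.D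
open Pool.Agent.MP_66cee2_co.TR Pool.Agent.MP_66cee2_co.Q
open scoped RealInnerProductSpace

variable {d n : ℕ} {O : (Ix n → ℝ) → Set (E d)}

theorem leb : SLeb := sLeb sBr sGen sPiece

theorem step2 (hO : Fam O) (c s s' : ℕ) (B : Set (E d)) (W : Submodule ℝ (Ix n → ℝ)) (hs : 1 ≤ s)
    (hB : IsOpen B) (hL : Lab O B W) (hS : Su c W) (hR : Rdy B s s') :
    ∃ (B' : Set (E d)) (W' : Submodule ℝ (Ix n → ℝ)),
      IsOpen B' ∧ Lab O B' W' ∧ Su (c + s) W' ∧ Hem B' s' := by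
  obtain ⟨o, u, M, ρ, η, a1, a2, a3, a4, a5, a6⟩ := hR
  obtain ⟨W', a, ha, b, hb, ab, b1, b2, b3⟩ :=
    sFold leb sRel d n c s O B W o u M ρ η hO hB hL hS hs a1 a2 a3 a4 a5
  rcases a6 a ha b hb ab with h | h
  · exact ⟨_, W', hB.inter (isOpen_lune a b), b2, b1, h⟩
  · exact ⟨_, W', hB.inter (isOpen_lune b a), b3, b1, h⟩

theorem low (hO : Fam O) (s : ℕ) : s ≤ 3 → ∀ (c : ℕ) (B : Set (E d))
    (W : Submodule ℝ (Ix n → ℝ)), IsOpen B → Lab O B W → Su c W → Hem B s →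
      2 * c + s * (s + 1) ≤ 2 * n + 4 := by
  induction s with
  | zero =>
    intro _ c B W _ _ hS _
    have := sRel.2 n c W hS
    omega
  | succ s ih =>
    intro hs c B W hB hL hS hH
    obtain ⟨B', W', b1, b2, b3, b4⟩ := step3 leb sRel sMove hO hB hL hS (by omega) hs hH
    have := ih (by omega) _ B' W' b1 b2 b3 b4
    nlinarith

theorem high (hO : Fam O) (s : ℕ) : ∀ (c : ℕ) (B : Set (E d)) (W : Submodule ℝ (Ix n → ℝ)),
    IsOpen B → Lab O B W → Su c W → Hem B (s + 2) → 4 * c + (s + 3) ^ 2 ≤ 4 * n + 5 := by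
  induction s using Nat.strong_induction_on with
  | _ s ih =>
    intro c B W hB hL hS hH
    rcases s with _ | _ | s
    · have := low hO 2 (by omega) c B W hB hL hS hH
      omega
    · have := low hO 3 (by omega) c B W hB hL hS hH
      omega
    · obtain ⟨B', W', b1, b2, b3, b4⟩ :=
        step2 hO c _ _ B W (by omega) hB hL hS (sMove.1 d _ B hB hH)
      have := ih s (by omega) _ B' W' b1 b2 b3 b4
      nlinarith

theorem hem_lune {a b : E d} (ab : a ≠ b) (h : ‖a - b‖ ≤ 1 / 10) : Hem (Lune a b) d := by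
  have p : 0 < ‖b - a‖ := norm_pos_iff.2 (sub_ne_zero.2 ab.symm)
  rw [norm_sub_rev] at h
  have p1 : 0 < ‖b - a‖ ^ 2 := by positivity
  have p2 : ‖b - a‖ ^ 2 ≤ (1 / 10) ^ 2 := pow_le_pow_left₀ p.le h 2
  have hsq : √(1 - ‖b - a‖ ^ 2 / 2) ^ 2 = 1 - ‖b - a‖ ^ 2 / 2 := Real.sq_sqrt (by linarith)
  refine ⟨b, b - a, ⊤, √(1 - ‖b - a‖ ^ 2 / 2), by simp, Real.sqrt_pos.2 (by linarith),
    by rw [hsq]; linarith, fun w _ hn hu => ⟨?_, ?_⟩⟩
  · rw [add_sub_cancel_left]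
    refine lt_of_pow_lt_pow_left₀ 2 zero_le_one ?_
    rw [hn, hsq]
    linarith
  · refine lt_of_pow_lt_pow_left₀ 2 (norm_nonneg _) ?_
    rw [show b + w - a = w + (b - a) by abel, norm_add_sq_real, hn, hsq]
    linarith

/-- the topological theorem, one dimension beyond the quadratic range. -/
theorem noFam (d n : ℕ) (O : (Ix n → ℝ) → Set (E d)) (hd : 3 ≤ d)
    (hn : 4 * n + 3 ≤ d ^ 2 + 6 * d) : ¬ Fam O := by
  intro hO
  rcases hd.eq_or_lt with rfl | h4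
  · obtain ⟨a, b, L, a1, a2, a3, a4⟩ := sTri sPM H31.sCut H31.sBump 3 n O (by omega) hO
    have := low hO 3 le_rfl 3 _ _ (isOpen_lune a b) a4 (sIni n 3 L a3) (hem_lune a1 a2)
    omega
  · obtain ⟨B, W, b1, b2, b3, b4⟩ := sSec d n O hd hO
    obtain ⟨B', W', c1, c2, c3, c4⟩ :=
      step2 hO (d + 2) (d - 1) _ B W (by omega) b1 b2 b3 (sMove.2 d _ B b1 b4)
    obtain ⟨e, rfl⟩ : ∃ e, d = e + 4 := ⟨d - 4, by omega⟩
    have := high hO e _ B' W' c1 c2 c3 c4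
    rw [show e + 4 - 1 = e + 3 by omega] at this
    nlinarith

end Pool.Agent.MP_66cee2_co.Q1
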