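import Pool.Agent.MP_66cee2_co.Q1.Geo
import Pool.Agent.MP_66cee2_co.Q.FoldG

/-
A step that loses one dimension only, for hemispheres in a space of dimension at most three.
-/

namespace Pool.Agent.MP_66cee2_co.Q1

open Set Metric Module Pool.Agent.MP_66cee2_co.X Pool.Agent.MP_66cee2_co.D
open Pool.Agent.MP_66cee2_co.TR Pool.Agent.MP_66cee2_co.Q
open scoped RealInnerProductSpace

variable {d : ℕ}

theorem sub_dim (M : Submodule ℝ (E d)) (s : ℕ) (h : s ≤ finrank ℝ M) :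
    ∃ N ≤ M, finrank ℝ N = s := by
  obtain ⟨f, hf⟩ := exists_linearIndependent_of_le_finrank h
  have l := hf.map' M.subtype M.ker_subtype
  refine ⟨Submodule.span ℝ (range (M.subtype ∘ f)), Submodule.span_le.2 ?_, ?_⟩
  · rintro _ ⟨i, rfl⟩
    exact (f i).2
  · rw [finrank_span_eq_card l, Fintype.card_fin]

/-- the slice through a small triangle. -/
theorem slice {s : ℕ} (B U : Set (E d)) (o u : E d) (M : Submodule ℝ (E d)) (ρ η k : ℝ)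
    (hM : finrank ℝ M = s) (s3 : s ≤ 3) (ρ0 : 0 < ρ) (η0 : 0 < η) (k1 : k ≤ 1 / 4)
    (k2 : 1 < 2 * (ρ ^ 2 - k) * (1 - 2 * k)) (hB : Shell o u M ρ η ⊆ B) {a b c : E d}
    (ha : a ∈ Shell o u M ρ (η / 2)) (hb : b ∈ Shell o u M ρ (η / 2))
    (hc : c ∈ Shell o u M ρ (η / 2)) (ab : a ≠ b) (ac : a ≠ c) (bc : b ≠ c)
    (n1 : ‖a - b‖ ^ 2 ≤ k) (n2 : ‖a - c‖ ^ 2 ≤ k) (n3 : ‖b - c‖ ^ 2 ≤ k)
    (hU : ∀ y : E d, (‖y - a‖ < 1 ∨ ‖y - b‖ < 1 ∨ ‖y - c‖ < 1) →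
      (1 < ‖y - a‖ ∨ 1 < ‖y - b‖ ∨ 1 < ‖y - c‖) → y ∈ U) : Hem (B ∩ U) (s - 1) := by
  obtain ⟨a, a1, rfl, a2, a3, a4⟩ := of_shell ρ0 ha
  obtain ⟨b, b1, rfl, b2, b3, b4⟩ := of_shell ρ0 hb
  obtain ⟨c, c1, rfl, c2, c3, c4⟩ := of_shell ρ0 hc
  simp only [add_sub_add_left_eq_sub] at n1 n2 n3
  obtain ⟨z, hz⟩ : ∃ z : E d, z = (1 / 3 : ℝ) • (a + b + c) := ⟨_, rfl⟩
  obtain ⟨κ, hκ⟩ : ∃ κ : ℝ, κ = (‖a - b‖ ^ 2 + ‖a - c‖ ^ 2 + ‖b - c‖ ^ 2) / 9 := ⟨_, rfl⟩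
  have mn : ∀ w : E d, ‖w - a‖ ^ 2 + ‖w - b‖ ^ 2 + ‖w - c‖ ^ 2 = 3 * ‖w - z‖ ^ 2 + 3 * κ :=
    fun w => by
      rw [mean a b c w, ← hz, hκ]
      ring
  have κ0 : 0 ≤ κ := by
    rw [hκ]
    positivity
  have κ1 : κ ≤ k := by
    have := sq_nonneg ‖a - b‖
    linarith
  have m0 := mn 0
  simp only [zero_sub, norm_neg] at m0
  have zM : z ∈ M := hz ▸ M.smul_mem _ (M.add_mem (M.add_mem a1 b1) c1)
  have zu : 0 ≤ ⟪z, u⟫ := by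
    rw [hz, real_inner_smul_left, inner_add_left, inner_add_left]
    positivity
  obtain ⟨Z, hZ⟩ : ∃ Z : ℝ, ‖z‖ ^ 2 = Z := ⟨_, rfl⟩
  rw [hZ] at m0
  have Z1 : ρ ^ 2 ≤ Z + κ := by linarith
  have Z2 : Z + κ ≤ ((1 + η / 2) * ρ) ^ 2 := by linarith
  have p1 : 0 < ρ ^ 2 - k := by
    by_contra h
    have := mul_nonpos_of_nonpos_of_nonneg (not_lt.1 h) (by linarith : 0 ≤ 1 - 2 * k)
    linarith
  have Z3 : 1 < 2 * Z * (1 - 2 * κ) := by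
    have p2 : (ρ ^ 2 - k) * (1 - 2 * k) ≤ Z * (1 - 2 * κ) :=
      mul_le_mul (by linarith) (by linarith) (by linarith) (by linarith)
    linarith
  have Z0 : 0 < Z := by linarith
  have r0 : 0 < ρ ^ 2 := by positivity
  obtain ⟨τ, t0, t1, t2⟩ := miss M (by omega) a1 b1 c1 (fun e => ab (by rw [e]))
    (fun e => ac (by rw [e])) (fun e => bc (by rw [e])) (Z + κ) (min (η * ρ ^ 2 / 2) (1 / 2))
    (lt_min (by positivity) (by norm_num))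
  have t3 : τ ≤ η * ρ ^ 2 := by
    have := min_le_left (η * ρ ^ 2 / 2) (1 / 2)
    linarith
  have t4 : τ ≤ 1 := by
    have := min_le_right (η * ρ ^ 2 / 2) (1 / 2)
    linarith
  obtain ⟨i, hi⟩ : ∃ i : ℝ, 2 * Z * i = 1 := ⟨1 / (2 * Z), by field_simp⟩
  have i0 : 0 < i := (pos_iff_pos_of_mul_pos (hi ▸ one_pos : 0 < 2 * Z * i)).1 (by positivity)
  have i1 : i < 1 - 2 * κ := by
    by_contra h
    have := mul_le_mul_of_nonneg_left (not_lt.1 h) (by positivity : 0 ≤ 2 * Z)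
    linarith
  obtain ⟨γ, hγ⟩ : ∃ γ : ℝ, γ = 1 - 2 * κ - τ := ⟨_, rfl⟩
  have g1 : γ ≤ 1 := by linarith
  have g2 : γ ^ 2 ≤ 1 := (sq_le_one_iff_abs_le_one γ).2 (abs_le.2 ⟨by linarith, g1⟩)
  have g3 : γ ^ 2 * i ≤ i := mul_le_of_le_one_left i0.le g2
  have g4 : 0 ≤ 1 - γ * i := by
    have := mul_le_of_le_one_left i0.le g1
    linarith
  have g5 : 1 / 2 < 1 - κ - γ ^ 2 * i / 2 := by linarith
  have hsq : √(1 - κ - γ ^ 2 * i / 2) ^ 2 = 1 - κ - γ ^ 2 * i / 2 := Real.sq_sqrt (by linarith)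
  refine ⟨o + (1 - γ * i) • z, u, M ⊓ (ℝ ∙ z)ᗮ, √(1 - κ - γ ^ 2 * i / 2), ?_,
    Real.sqrt_pos.2 (by linarith), by rw [hsq]; exact g5, ?_⟩
  · have := Movex.rank M z
    omega
  rintro w ⟨w1, w2⟩ hn hu
  have w3 : ⟪z, w⟫ = 0 := Submodule.mem_orthogonal_singleton_iff_inner_right.1 w2
  have q1 := Movex.nsq z w (1 - γ * i) w3
  have q2 := Movex.nsq z w (-(γ * i)) w3
  rw [hn, hsq, hZ] at q1 q2
  have q3 : ‖(1 - γ * i) • z + w‖ ^ 2 = Z + κ + τ := by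
    rw [q1, hγ]
    linear_combination (-(1 - 2 * κ - τ) + (1 - 2 * κ - τ) ^ 2 * i / 2) * hi
  have q4 : ‖(1 - γ * i) • z + w - z‖ ^ 2 = 1 - κ := by
    rw [show (1 - γ * i) • z + w - z = (-(γ * i)) • z + w by module, q2]
    linear_combination (γ ^ 2 * i / 2) * hi
  have vM : (1 - γ * i) • z + w ∈ M := M.add_mem (M.smul_mem _ zM) w1
  rw [add_assoc]
  refine ⟨hB (shell_mem ρ0 η0 vM ?_ ?_ ?_), ?_⟩
  · rw [inner_add_left, real_inner_smul_left]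
    exact add_nonneg (mul_nonneg g4 zu) hu
  · linarith
  · rw [q3]
    have p2 := mul_pos (mul_pos η0 η0) r0
    have p3 : ((1 + η) * ρ) ^ 2 = ((1 + η / 2) * ρ) ^ 2 + η * ρ ^ 2 + 3 / 4 * (η * η * ρ ^ 2) := by
      ring
    linarith
  · have q5 := mn ((1 - γ * i) • z + w)
    rw [q4] at q5
    obtain ⟨s1, s2⟩ := split (norm_nonneg _) (norm_nonneg _) (norm_nonneg _)
      (q5.trans (by ring)) (t2 _ vM q3)
    refine hU _ ?_ ?_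
    · simpa only [add_sub_add_left_eq_sub] using s1
    · simpa only [add_sub_add_left_eq_sub] using s2

theorem step3 (h1 : SLeb) (h2 : SRel) (h3 : SMove) {n c s : ℕ} {O : (Ix n → ℝ) → Set (E d)}
    {B : Set (E d)} {W : Submodule ℝ (Ix n → ℝ)} (hO : Fam O) (hB : IsOpen B) (hL : Lab O B W)
    (hS : Su c W) (s1 : 1 ≤ s) (s3 : s ≤ 3) (hH : Hem B s) :
    ∃ (B' : Set (E d)) (W' : Submodule ℝ (Ix n → ℝ)), IsOpen B' ∧ Lab O B' W' ∧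
      Su (c + s) W' ∧ Hem B' (s - 1) := by
  obtain ⟨o, u, M₀, ρ, η, a1, ρ0, ρ1, η0, a5, -⟩ := h3.1 d s B hB hH
  obtain ⟨M, m1, m2⟩ := sub_dim M₀ s a1
  have b1 : Shell o u M ρ η ⊆ B := by
    rintro y ⟨w, w1, h⟩
    exact a5 ⟨w, m1 w1, h⟩
  have b2 : Shell o u M ρ (η / 2) ⊆ B := by
    rintro y ⟨w, w1, κ, w2, w3, w4, w5, h⟩
    exact b1 ⟨w, w1, κ, w2, w3, w4, by linarith, h⟩
  obtain ⟨k, k0, k1, k2⟩ : ∃ k : ℝ, 0 < k ∧ k ≤ 1 / 4 ∧ 1 < 2 * (ρ ^ 2 - k) * (1 - 2 * k) := by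
    obtain ⟨β, hβ⟩ : ∃ β : ℝ, ρ ^ 2 = 1 / 2 + β := ⟨ρ ^ 2 - 1 / 2, by ring⟩
    have β0 : 0 < β := by linarith
    obtain ⟨k, hk⟩ : ∃ k : ℝ, k * (4 + 4 * β) = β := ⟨β / (4 + 4 * β), by field_simp⟩
    have k0 : 0 < k := by
      by_contra h
      push Not at h
      nlinarith
    refine ⟨k, k0, by nlinarith, ?_⟩
    rw [hβ]
    nlinarith [mul_pos k0 k0]
  obtain ⟨W', K, c1, c2, ⟨a, ha, b, hb, ab⟩, c4, c5, c6⟩ := sFoldK h1 h2 hO hB hL hS s1 m2.ge ρ0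
    ρ1 (half_pos η0) b2 (Real.sqrt_pos.2 k0)
  obtain ⟨e, he, ae, be⟩ := third c2 ha hb ab
  have sq : ∀ p ∈ K, ∀ q ∈ K, ‖p - q‖ ^ 2 ≤ k := fun p hp q hq =>
    (pow_le_pow_left₀ (norm_nonneg _) (c4 p hp q hq) 2).trans (Real.sq_sqrt k0.le).le
  refine ⟨B ∩ ⋃ p ∈ K, ⋃ q ∈ K, Lune p q, W', hB.inter (isOpen_biUnion fun p _ =>
    isOpen_biUnion fun q _ => isOpen_lune p q), ?_, c5, ?_⟩
  · rintro v y hy ⟨y1, y2⟩
    simp only [mem_iUnion] at y2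
    obtain ⟨p, hp, q, hq, y3⟩ := y2
    exact c6 p hp q hq v y hy ⟨y1, y3⟩
  · refine slice B _ o u M ρ η k m2 s3 ρ0 η0 k1 k2 b1 (c1 ha) (c1 hb) (c1 he) ab ae be
      (sq a ha b hb) (sq a ha e he) (sq b hb e he) fun y y1 y2 => ?_
    obtain ⟨q, hq, y3⟩ : ∃ q ∈ K, ‖y - q‖ < 1 := by
      rcases y1 with h | h | h
      exacts [⟨a, ha, h⟩, ⟨b, hb, h⟩, ⟨e, he, h⟩]
    obtain ⟨p, hp, y4⟩ : ∃ p ∈ K, 1 < ‖y - p‖ := by
      rcases y2 with h | h | h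
      exacts [⟨a, ha, h⟩, ⟨b, hb, h⟩, ⟨e, he, h⟩]
    simp only [mem_iUnion]
    exact ⟨p, hp, q, hq, y3, y4⟩

end Pool.Agent.MP_66cee2_co.Q1
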